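import Pool.Agent.Helper15.MT.Irr
import Pool.Agent.Helper15.MT.Link

/-! Project OneNode. A Lie algebra of endomorphisms which is stable under a group whose subgroups of finite index are
irreducible, and is normalised by a homology of order greater than two, consists of all the endomorphisms. -/

set_option autoImplicit false

namespace Pool.Agent.Helper15.OneNode

open Module Pool.Agent.Helper15.MT

variable {L V Γ : Type*} [Field L] [AddCommGroup V] [Module L V] [Group Γ]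

/-- The parts of degree `-1` and `1`, for a projection which normalises `𝔩`. -/
theorem part_mem' [CharZero L] {𝔩 : Submodule L (End L V)} {p x : End L V}
    (hn : ∀ x ∈ 𝔩, p * x - x * p ∈ 𝔩) (hpp : p * p = p) (hx : x ∈ 𝔩) :
    (1 - p) * x * p ∈ 𝔩 ∧ p * x * (1 - p) ∈ 𝔩 := by
  have h1 : p * x - x * p ∈ 𝔩 := hn x hx
  have h2 : p * (p * x - x * p) - (p * x - x * p) * p ∈ 𝔩 := hn _ h1
  have h3 : p * (p * x - x * p) - (p * x - x * p) * p = x * p - (2 : L) • (p * x * p) + p * x := by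
    rw [sub_mul, mul_sub, mul_assoc x p p, hpp, ← mul_assoc p p x, hpp, two_smul]
    noncomm_ring
  rw [h3] at h2
  have h4 : (2 : L) ≠ 0 := two_ne_zero
  constructor
  · have h5 : (1 - p) * x * p = (2 : L)⁻¹ • ((x * p - (2 : L) • (p * x * p) + p * x) -
        (p * x - x * p)) := by
      rw [eq_inv_smul_iff₀ h4, two_smul, two_smul]
      noncomm_ring
    rw [h5]
    exact 𝔩.smul_mem _ (𝔩.sub_mem h2 h1)
  · have h5 : p * x * (1 - p) = (2 : L)⁻¹ • ((x * p - (2 : L) • (p * x * p) + p * x) +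
        (p * x - x * p)) := by
      rw [eq_inv_smul_iff₀ h4, two_smul, two_smul]
      noncomm_ring
    rw [h5]
    exact 𝔩.smul_mem _ (𝔩.add_mem h2 h1)

/-- the normaliser -/
def nrm (𝔩 : Submodule L (End L V)) : Submodule L (End L V) where
  carrier := {y | ∀ x ∈ 𝔩, y * x - x * y ∈ 𝔩}
  add_mem' := by
    intro a b ha hb x hx
    have : (a + b) * x - x * (a + b) = (a * x - x * a) + (b * x - x * b) := by noncomm_ring
    rw [this]
    exact 𝔩.add_mem (ha x hx) (hb x hx)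
  zero_mem' := by
    intro x _
    rw [zero_mul, mul_zero, sub_zero]
    exact 𝔩.zero_mem
  smul_mem' := by
    intro c a ha x hx
    rw [smul_mul_assoc, mul_smul_comm, ← smul_sub]
    exact 𝔩.smul_mem c (ha x hx)

theorem mem_nrm {𝔩 : Submodule L (End L V)} {y : End L V} :
    y ∈ nrm 𝔩 ↔ ∀ x ∈ 𝔩, y * x - x * y ∈ 𝔩 := Iff.rfl

theorem nrm_lie (𝔩 : Submodule L (End L V)) : IsLie (nrm 𝔩) := by
  intro y hy z hz x hx
  have h1 := hy _ (hz x hx)
  have h2 := hz _ (hy x hx)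
  have : (y * z - z * y) * x - x * (y * z - z * y) = (y * (z * x - x * z) - (z * x - x * z) * y) -
      (z * (y * x - x * y) - (y * x - x * y) * z) := by noncomm_ring
  rw [this]
  exact 𝔩.sub_mem h1 h2

/-- **The block theorem for homologies.** -/
theorem full_of_norm [CharZero L] [FiniteDimensional L V] (ρ : Γ →* End L V)
    (hirr : ∀ Γ' : Subgroup Γ, Γ'.FiniteIndex → ∀ S : Submodule L V,
      (∀ g ∈ Γ', ∀ s ∈ S, ρ g s ∈ S) → S = ⊥ ∨ S = ⊤)
    {𝔩 : Submodule L (End L V)} (hl : IsLie 𝔩) (hconj : ∀ g, ∀ x ∈ 𝔩, ρ g * x * ρ g⁻¹ ∈ 𝔩)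
    (h1 : (1 : End L V) ∈ 𝔩) {P : End L V} (hP : P ∈ 𝔩) (hPs : ∀ c : L, P ≠ c • (1 : End L V))
    (v : V) (φ : Dual L V) (hv : φ v = 1)
    (hpq : ∀ x ∈ 𝔩, rk v φ * x - x * rk v φ ∈ 𝔩) : 𝔩 = ⊤ := by
  classical
  -- the normaliser is everything
  have hN : nrm 𝔩 = ⊤ := by
    refine full_of_refl ρ hirr (nrm_lie 𝔩) (fun g y hy x hx => ?_) v φ hv hpq
    have h2 := hconj g⁻¹ x hx
    rw [inv_inv] at h2
    have h3 := hconj g _ (hy _ h2)
    have e1 : ρ g * ρ g⁻¹ = 1 := by rw [← map_mul, mul_inv_cancel, map_one]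
    have h4 : ρ g * (y * (ρ g⁻¹ * x * ρ g) - ρ g⁻¹ * x * ρ g * y) * ρ g⁻¹ =
        ρ g * y * ρ g⁻¹ * x * (ρ g * ρ g⁻¹) - (ρ g * ρ g⁻¹) * x * (ρ g * y * ρ g⁻¹) := by
      noncomm_ring
    rw [h4, e1, mul_one, one_mul] at h3
    exact h3
  have hid : ∀ y : End L V, ∀ x ∈ 𝔩, y * x - x * y ∈ 𝔩 := by
    intro y
    have : y ∈ nrm 𝔩 := by rw [hN]; exact Submodule.mem_top
    exact this
  -- a vector which is not an eigenvector
  obtain ⟨w, hw⟩ : ∃ w : V, LinearIndependent L ![w, P w] := by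
    by_contra hcon
    push Not at hcon
    obtain ⟨a, ha⟩ := LinearMap.exists_eq_smul_id_of_forall_notLinearIndependent hcon
    exact hPs a ha
  obtain ⟨ψ, hψ1, hψ2⟩ : ∃ ψ : Dual L V, ψ w = 1 ∧ ψ (P w) = 0 := by
    have hf : ∃ f : Dual L V, ∀ i, f (![w, P w] i) = ![(1 : L), 0] i := by
      obtain ⟨f, hf⟩ := LinearMap.exists_extend ((Basis.span hw).constr L ![(1 : L), 0])
      refine ⟨f, fun i => ?_⟩
      have h2 := LinearMap.congr_fun hf (Basis.span hw i)
      rw [Basis.constr_basis, LinearMap.comp_apply] at h2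
      rw [← h2]
      exact congrArg f (congrArg Subtype.val (Basis.span_apply hw i)).symm
    obtain ⟨f, hf⟩ := hf
    exact ⟨f, hf 0, hf 1⟩
  have hPw : P w ≠ 0 := hw.ne_zero 1
  have hpp : rk w ψ * rk w ψ = rk w ψ := by rw [mul_rk, rk_apply, hψ1, one_smul]
  -- a nilpotent element of rank one
  have hn : rk (P w) ψ ∈ 𝔩 := by
    have h2 := (part_mem' (p := rk w ψ) (fun x hx => hid _ x hx) hpp hP).1
    have h3 : (1 - rk w ψ) * P * rk w ψ = rk (P w) ψ := by
      ext u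
      simp only [Module.End.mul_apply, LinearMap.sub_apply, Module.End.one_apply, rk_apply,
        map_smul, hψ2, zero_smul, sub_zero]
    rwa [h3] at h2
  obtain ⟨χ, hχ⟩ : ∃ χ : Dual L V, χ (P w) = 1 := by
    obtain ⟨f, hf⟩ : ∃ f : Dual L V, f (P w) ≠ 0 := by
      by_contra hcon
      push Not at hcon
      exact hPw ((Module.forall_dual_apply_eq_zero_iff L _).1 hcon)
    exact ⟨(f (P w))⁻¹ • f, by rw [LinearMap.smul_apply, smul_eq_mul, inv_mul_cancel₀ hf]⟩
  have hker : ∀ u : V, ψ u = 0 → rk u ψ ∈ 𝔩 := by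
    intro u hu
    have h2 := hid (rk u χ) _ hn
    have h3 : rk u χ * rk (P w) ψ - rk (P w) ψ * rk u χ = rk u ψ := by
      ext y
      simp only [Module.End.mul_apply, LinearMap.sub_apply, rk_apply, map_smul, hχ, hu,
        smul_zero, sub_zero, one_smul, zero_smul]
    rwa [h3] at h2
  have hdiff : ∀ (u : V) (θ : Dual L V), ψ u = 0 → θ u = 1 → rk w ψ - rk u θ ∈ 𝔩 := by
    intro u θ hu hθ
    have h2 := hid (rk w θ) _ (hker u hu)
    have h3 : rk w θ * rk u ψ - rk u ψ * rk w θ = rk w ψ - rk u θ := by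
      ext y
      simp only [Module.End.mul_apply, LinearMap.sub_apply, rk_apply, map_smul, hθ, hψ1]
      rw [one_smul, one_smul]
    rwa [h3] at h2
  -- the identity is a sum of projections to lines
  let b := Module.finBasis L (LinearMap.ker ψ)
  let q : V →ₗ[L] LinearMap.ker ψ := LinearMap.codRestrict (LinearMap.ker ψ) (1 - rk w ψ) (by
    intro x
    rw [LinearMap.mem_ker, LinearMap.sub_apply, Module.End.one_apply, rk_apply, map_sub, map_smul,
      hψ1, smul_eq_mul, mul_one, sub_self])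
  have hq : ∀ x : V, ((q x : LinearMap.ker ψ) : V) = x - ψ x • w := fun _ => rfl
  have hqb : ∀ i, q (b i : V) = b i := by
    intro i
    apply Subtype.ext
    rw [hq]
    have : ψ (b i : V) = 0 := (b i).2
    rw [this, zero_smul, sub_zero]
  have hsum : (1 : End L V) - rk w ψ = ∑ i, rk (b i : V) (b.coord i ∘ₗ q) := by
    ext x
    rw [LinearMap.sum_apply, LinearMap.sub_apply, Module.End.one_apply, rk_apply]
    have h2 := congrArg (Submodule.subtype (LinearMap.ker ψ)) (b.sum_repr (q x))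
    rw [map_sum] at h2
    have h3 : (Submodule.subtype (LinearMap.ker ψ)) (q x) = x - ψ x • w := hq x
    rw [h3] at h2
    rw [← h2]
    rfl
  have hmem : ∑ i, (rk w ψ - rk (b i : V) (b.coord i ∘ₗ q)) ∈ 𝔩 := by
    refine 𝔩.sum_mem fun i _ => hdiff _ _ (b i).2 ?_
    rw [LinearMap.comp_apply, hqb, Basis.coord_apply, Basis.repr_self, Finsupp.single_eq_same]
  rw [Finset.sum_sub_distrib, ← hsum, Finset.sum_const, Finset.card_univ, Fintype.card_fin] at hmem
  have h5 := 𝔩.add_mem hmem h1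
  have h6 : finrank L (LinearMap.ker ψ) • rk w ψ - (1 - rk w ψ) + 1 =
      ((finrank L (LinearMap.ker ψ) + 1 : ℕ) : L) • rk w ψ := by
    rw [Nat.cast_smul_eq_nsmul, add_smul, one_smul]
    abel
  rw [h6] at h5
  have h7 : ((finrank L (LinearMap.ker ψ) + 1 : ℕ) : L) ≠ 0 := Nat.cast_ne_zero.2 (Nat.succ_ne_zero _)
  have h8 := 𝔩.smul_mem (((finrank L (LinearMap.ker ψ) + 1 : ℕ) : L))⁻¹ h5
  rw [smul_smul, inv_mul_cancel₀ h7, one_smul] at h8
  exact full_of_refl ρ hirr hl hconj w ψ hψ1 h8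

/-- A homology with eigenvalue `z`, `z ^ 2 ≠ 1`. -/
theorem nrm_of_hom {𝔩 : Submodule L (End L V)} {v : V} {φ : Dual L V} (hv : φ v = 1) {z : L}
    (hz0 : z ≠ 0) (hz : z ^ 2 ≠ 1)
    (hconj : ∀ x ∈ 𝔩, (1 + (z - 1) • rk v φ) * x * (1 + (z⁻¹ - 1) • rk v φ) ∈ 𝔩) :
    ∀ x ∈ 𝔩, rk v φ * x - x * rk v φ ∈ 𝔩 := by
  intro x hx
  obtain ⟨p, hp⟩ : ∃ p : End L V, p = rk v φ := ⟨_, rfl⟩
  have hpp : p * p = p := by rw [hp, mul_rk, rk_apply, hv, one_smul]
  rw [← hp] at hconj ⊢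
  have hz1 : z - 1 ≠ 0 := by
    intro h
    apply hz
    rw [sub_eq_zero.1 h, one_pow]
  have hz2 : z + 1 ≠ 0 := by
    intro h
    apply hz
    rw [eq_neg_of_add_eq_zero_left h]
    norm_num
  have key : ∀ x : End L V, (1 + (z - 1) • p) * x * (1 + (z⁻¹ - 1) • p) - x =
      (z - 1) • (p * x * (1 - p)) + (z⁻¹ - 1) • ((1 - p) * x * p) := by
    intro x
    have e : (z - 1) * (z⁻¹ - 1) = -(z - 1) - (z⁻¹ - 1) := by
      have := mul_inv_cancel₀ hz0
      linear_combination this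
    have : (1 + (z - 1) • p) * x * (1 + (z⁻¹ - 1) • p) = x + (z - 1) • (p * x) +
        (z⁻¹ - 1) • (x * p) + ((z - 1) * (z⁻¹ - 1)) • (p * x * p) := by
      simp only [add_mul, mul_add, one_mul, mul_one, smul_mul_assoc, mul_smul_comm]
      module
    rw [this, e]
    simp only [mul_sub, sub_mul, mul_one, one_mul, smul_sub, sub_smul, neg_smul]
    abel
  have hA : ∀ x ∈ 𝔩, (z - 1) • (p * x * (1 - p)) + (z⁻¹ - 1) • ((1 - p) * x * p) ∈ 𝔩 := by
    intro x hx
    rw [← key x]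
    exact 𝔩.sub_mem (hconj x hx) hx
  have hpq : p * (1 - p) = 0 := by rw [mul_sub, mul_one, hpp, sub_self]
  have hqp : (1 - p) * p = 0 := by rw [sub_mul, one_mul, hpp, sub_self]
  have hqq : (1 - p) * (1 - p) = 1 - p := by
    rw [mul_sub, mul_one, hqp, sub_zero]
  have h2 := hA _ (hA x hx)
  have e1 : p * ((z - 1) • (p * x * (1 - p)) + (z⁻¹ - 1) • ((1 - p) * x * p)) * (1 - p) =
      (z - 1) • (p * x * (1 - p)) := by
    rw [mul_add, add_mul, mul_smul_comm, mul_smul_comm, smul_mul_assoc, smul_mul_assoc]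
    have a1 : p * (p * x * (1 - p)) * (1 - p) = (p * p) * x * ((1 - p) * (1 - p)) := by noncomm_ring
    have a2 : p * ((1 - p) * x * p) * (1 - p) = (p * (1 - p)) * x * (p * (1 - p)) := by noncomm_ring
    rw [a1, a2, hpp, hqq, hpq, zero_mul, zero_mul, smul_zero, add_zero]
  have e2 : (1 - p) * ((z - 1) • (p * x * (1 - p)) + (z⁻¹ - 1) • ((1 - p) * x * p)) * p =
      (z⁻¹ - 1) • ((1 - p) * x * p) := by
    rw [mul_add, add_mul, mul_smul_comm, mul_smul_comm, smul_mul_assoc, smul_mul_assoc]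
    have a1 : (1 - p) * (p * x * (1 - p)) * p = ((1 - p) * p) * x * ((1 - p) * p) := by noncomm_ring
    have a2 : (1 - p) * ((1 - p) * x * p) * p = ((1 - p) * (1 - p)) * x * (p * p) := by noncomm_ring
    rw [a1, a2, hpp, hqq, hqp, zero_mul, zero_mul, smul_zero, zero_add]
  rw [e1, e2, smul_smul, smul_smul] at h2
  have h3 := hA x hx
  -- `a A + b B` and `a ^ 2 A + b ^ 2 B` are in `𝔩`
  have hzi : z⁻¹ - 1 ≠ 0 := by
    intro h
    have h4 : z⁻¹ = 1 := sub_eq_zero.1 h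
    apply hz1
    rw [inv_eq_one.1 h4, sub_self]
  have hne : (z - 1) - (z⁻¹ - 1) ≠ 0 := by
    intro h
    have h4 : z = z⁻¹ := by linear_combination h
    apply hz
    have h5 : z * z = z * z⁻¹ := congrArg (z * ·) h4
    rw [mul_inv_cancel₀ hz0] at h5
    rw [pow_two, h5]
  have hAA : p * x * (1 - p) ∈ 𝔩 := by
    have h4 := 𝔩.sub_mem h2 (𝔩.smul_mem (z⁻¹ - 1) h3)
    have h5 : ((z - 1) * (z - 1)) • (p * x * (1 - p)) + ((z⁻¹ - 1) * (z⁻¹ - 1)) •
        ((1 - p) * x * p) - (z⁻¹ - 1) • ((z - 1) • (p * x * (1 - p)) + (z⁻¹ - 1) •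
        ((1 - p) * x * p)) = ((z - 1) * ((z - 1) - (z⁻¹ - 1))) • (p * x * (1 - p)) := by
      module
    rw [h5] at h4
    have h6 := 𝔩.smul_mem ((z - 1) * ((z - 1) - (z⁻¹ - 1)))⁻¹ h4
    rwa [smul_smul, inv_mul_cancel₀ (mul_ne_zero hz1 hne), one_smul] at h6
  have hBB : (1 - p) * x * p ∈ 𝔩 := by
    have h4 := 𝔩.sub_mem h3 (𝔩.smul_mem (z - 1) hAA)
    rw [add_sub_cancel_left] at h4
    have h6 := 𝔩.smul_mem (z⁻¹ - 1)⁻¹ h4
    rwa [smul_smul, inv_mul_cancel₀ hzi, one_smul] at h6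
  have h7 : p * x - x * p = p * x * (1 - p) - (1 - p) * x * p := by noncomm_ring
  rw [h7]
  exact 𝔩.sub_mem hAA hBB

end Pool.Agent.Helper15.OneNode
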